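import Pool.Agent.K4H65.EM.Spec

set_option autoImplicit false

namespace Pool.Agent.K4H65.EM

open Finset

theorem t2_pow (N : ℕ) (x : ℝ) (hx : 0 ≤ x) (h : (N : ℝ) * x ≤ 1 / 2) : (1 + x) ^ N ≤ 2 := by
  have h1 : (1 + x) ^ N ≤ Real.exp x ^ N := by
    apply pow_le_pow_left₀ (by linarith)
    have := Real.add_one_le_exp x
    linarith
  have h2 : Real.exp x ^ N = Real.exp ((N : ℝ) * x) := by rw [Real.exp_nat_mul]
  have h3 : Real.exp ((N : ℝ) * x) ≤ Real.exp (1 / 2) := Real.exp_le_exp.2 h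
  have h4 : Real.exp (1 / 2) ≤ 2 := by
    have h5 := Real.exp_one_lt_d9
    have h6 : Real.exp (1 / 2) * Real.exp (1 / 2) = Real.exp 1 := by
      rw [← Real.exp_add]; norm_num
    nlinarith [Real.exp_pos (1 / 2)]
  linarith

theorem t2 : S_T2a → S_T2 := by
  classical
  intro hT n l U g hl hU hg
  have main : ∀ B : Finset (Fin n × Fin n → Fin 1024),
      (∀ ω ∈ B, ∀ j, U.card ≤ 64 * 1024 * cn (gr ω) U (g (j, 0)) (g (j, 1))) →
      B.card * 2 ^ ((l + 1) * U.card + 2 * (2 ^ 19 * l) * l + 3) ≤ 1024 ^ (n * n) := by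
    intro B hB
    set W : Finset (Fin n) := U \ univ.image g with hW
    have hgW : ∀ p, g p ∉ W := fun p hp => (mem_sdiff.1 hp).2 (mem_image_of_mem g (mem_univ p))
    have key := hT n (2 ^ 19 * l) W g hg hgW
    have hWU : W.card ≤ U.card := card_le_card sdiff_subset
    have hcard : (univ.image g).card ≤ 2 * (2 ^ 19 * l) := by
      refine card_image_le.trans ?_
      rw [card_univ, Fintype.card_prod, Fintype.card_fin, Fintype.card_fin, mul_comm]
    have hcn : ∀ (G : SimpleGraph (Fin n)) (v w : Fin n),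
        cn G U v w ≤ cn G W v w + 2 * (2 ^ 19 * l) := by
      intro G v w
      refine le_trans ?_ (Nat.add_le_add_left hcard _)
      unfold cn
      refine le_trans (card_le_card ?_) (card_union_le _ _)
      intro x hx
      rw [mem_filter] at hx
      rw [mem_union, mem_filter]
      by_cases hxg : x ∈ univ.image g
      · exact Or.inr hxg
      · exact Or.inl ⟨mem_sdiff.2 ⟨hx.1, hxg⟩, hx.2⟩
    have hY : ∀ ω ∈ B, 4 * (l * U.card) ≤ ∑ j, cn (gr ω) W (g (j, 0)) (g (j, 1)) := by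
      intro ω hω
      have h1 : ∀ j, U.card ≤ 131072 * cn (gr ω) W (g (j, 0)) (g (j, 1)) := by
        intro j
        have h2 := hB ω hω j
        have h3 := hcn (gr ω) (g (j, 0)) (g (j, 1))
        norm_num at hU h3
        omega
      have h4 : ∑ _j : Fin (2 ^ 19 * l), U.card ≤
          ∑ j, 131072 * cn (gr ω) W (g (j, 0)) (g (j, 1)) := sum_le_sum (fun j _ => h1 j)
      rw [sum_const, card_univ, Fintype.card_fin, ← mul_sum, smul_eq_mul, mul_assoc] at h4
      norm_num at h4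
      omega
    have hmk : (B.card : ℝ) * 2 ^ (4 * (l * U.card)) ≤
        1024 ^ (n * n) * (1 + 1 / 1024 ^ 2) ^ (2 ^ 19 * l * W.card) := by
      rw [← key]
      have h1 : (B.card : ℝ) * 2 ^ (4 * (l * U.card)) ≤ ∑ ω ∈ B,
          (2 : ℝ) ^ (∑ j : Fin (2 ^ 19 * l), cn (gr ω) W (g (j, 0)) (g (j, 1))) := by
        rw [← nsmul_eq_mul]
        refine card_nsmul_le_sum _ _ _ (fun ω hω => ?_)
        exact pow_le_pow_right₀ (by norm_num) (hY ω hω)
      refine h1.trans (sum_le_sum_of_subset_of_nonneg (subset_univ _) (fun _ _ _ => ?_))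
      positivity
    have hbase : (1 : ℝ) ≤ 1 + 1 / 1024 ^ 2 := by norm_num
    have h2 : ((1 : ℝ) + 1 / 1024 ^ 2) ^ (2 ^ 19 * l * W.card) ≤ 2 ^ (l * U.card) := by
      have h3 : ((1 : ℝ) + 1 / 1024 ^ 2) ^ (2 ^ 19) ≤ 2 :=
        t2_pow _ _ (by norm_num) (by push_cast; norm_num)
      calc ((1 : ℝ) + 1 / 1024 ^ 2) ^ (2 ^ 19 * l * W.card)
          ≤ ((1 : ℝ) + 1 / 1024 ^ 2) ^ (2 ^ 19 * (l * U.card)) := by
            apply pow_le_pow_right₀ hbase
            rw [mul_assoc]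
            exact Nat.mul_le_mul_left _ (Nat.mul_le_mul_left _ hWU)
        _ = (((1 : ℝ) + 1 / 1024 ^ 2) ^ (2 ^ 19)) ^ (l * U.card) := pow_mul _ _ _
        _ ≤ 2 ^ (l * U.card) := pow_le_pow_left₀ (pow_nonneg (by linarith) _) h3 _
    have hexp : (l + 1) * U.card + 2 * (2 ^ 19 * l) * l + 3 ≤ 3 * (l * U.card) := by
      have h3 : 2 ^ 37 * l * l ≤ U.card * l := Nat.mul_le_mul_right _ hU
      norm_num at h3 ⊢
      nlinarith
    have h4 : (B.card : ℝ) * 2 ^ ((l + 1) * U.card + 2 * (2 ^ 19 * l) * l + 3) *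
        2 ^ (l * U.card) ≤ 1024 ^ (n * n) * 2 ^ (l * U.card) := by
      calc (B.card : ℝ) * 2 ^ ((l + 1) * U.card + 2 * (2 ^ 19 * l) * l + 3) * 2 ^ (l * U.card)
          ≤ (B.card : ℝ) * 2 ^ (3 * (l * U.card)) * 2 ^ (l * U.card) := by
            apply mul_le_mul_of_nonneg_right _ (by positivity)
            apply mul_le_mul_of_nonneg_left _ (by positivity)
            exact pow_le_pow_right₀ (by norm_num) hexp
        _ = (B.card : ℝ) * 2 ^ (4 * (l * U.card)) := by
            rw [mul_assoc, ← pow_add]; congr 2; ring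
        _ ≤ 1024 ^ (n * n) * (1 + 1 / 1024 ^ 2) ^ (2 ^ 19 * l * W.card) := hmk
        _ ≤ 1024 ^ (n * n) * 2 ^ (l * U.card) := by
            apply mul_le_mul_of_nonneg_left h2 (by positivity)
    have h5 := le_of_mul_le_mul_right h4 (by positivity)
    exact_mod_cast h5
  exact main _ (fun ω hω => (mem_filter.1 hω).2)

end Pool.Agent.K4H65.EM
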