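import Pool.Agent.K4H29.TilT3

open Set

namespace Pool.Agent.K4H72.Til

/-- statement of T1 -/
def St1 : Prop := ∀ (F : Set ℂ) (_ : F.Finite) (η : ℝ) (_ : 0 < η),
    ∃ M : ℕ, 0 < M ∧ ∃ φ : AddSubgroup.closure F →+ ℤ × ℤ,
      ∀ f (hf : f ∈ F), ‖(M : ℂ) * f - E (φ ⟨f, AddSubgroup.subset_closure hf⟩)‖ ≤ η

/-- statement of T2 -/
def St2 : Prop := ∃ c : Set ℂ → ℂ, (∀ A : Set ℂ, A.Finite → A.Nonempty → c A ∈ A) ∧
    ∀ (A : Set ℂ) (t : ℂ), A.Finite → A.Nonempty → c ((fun z => z + t) '' A) = c A + t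

/-- statement of T4, first part -/
def St4a : Prop := ∀ (P : Set ℂ) (D : ℝ) (_ : 0 < D) (_ : ∀ x : ℂ, ∃ p ∈ P, ‖x - p‖ ≤ D / 4)
    (u : ℂ → ℂ) (η : ℝ) (_ : 0 ≤ η) (_ : ∀ p ∈ P, ∀ p' ∈ P, ‖p - p'‖ ≤ D → ‖u p - u p'‖ ≤ η),
    ∀ p ∈ P, ∀ p' ∈ P, ‖u p - u p'‖ ≤ η * (1 + 4 * ‖p - p'‖ / D)

/-- statement of T4, second part -/
def St4b : Prop := ∀ (P : Set ℂ) (D : ℝ) (_ : 0 < D) (_ : ∀ x : ℂ, ∃ p ∈ P, ‖x - p‖ ≤ D / 4)
    (G : AddSubgroup ℂ) (_ : ∀ p ∈ P, ∀ p' ∈ P, ‖p - p'‖ ≤ D → p - p' ∈ G),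
    ∀ p ∈ P, ∀ p' ∈ P, p - p' ∈ G

/-- statement of T5 -/
def St5 : Prop := ∀ (P : Set ℂ) (D : ℝ) (_ : 0 < D) (_ : ∀ x : ℂ, ∃ p ∈ P, ‖x - p‖ ≤ D / 4)
    (Φ : ℂ → ℤ × ℤ) (M : ℝ) (_ : 1 ≤ M)
    (_ : ∀ p ∈ P, ∀ p' ∈ P, ‖p - p'‖ ≤ D → ‖(M : ℂ) * (p - p') - E (Φ p - Φ p')‖ ≤ D / 8),
    ∀ v : ℤ × ℤ, ∃ p ∈ P, ‖E (Φ p - v)‖ ≤ M * D

theorem deform_of (t1 : St1) (t2 : St2) (t4a : St4a) (t4b : St4b) (t5 : St5)
    (P : Set ℂ) (D : ℝ) (hD : 0 < D) (hdense : ∀ x : ℂ, ∃ p ∈ P, ‖x - p‖ ≤ D / 4)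
    (hfin : {d : ℂ | ∃ p ∈ P, ∃ p' ∈ P, d = p - p' ∧ ‖d‖ ≤ 8 * D}.Finite) :
    ∃ (h : ℝ) (g : ℤ × ℤ → ℂ), Def1 h g ∧ ∀ R2 : ℝ, ∃ R : ℝ, ∀ x y : ℂ,
      (∀ p : ℂ, ‖p‖ < R → (x + p ∈ P ↔ y + p ∈ P)) →
        ∃ τ : ℤ × ℤ, ∀ v, ‖g v - x‖ ≤ R2 → g (v + τ) = g v + (y - x) := by
  classical
  set F : Set ℂ := {d : ℂ | ∃ p ∈ P, ∃ p' ∈ P, d = p - p' ∧ ‖d‖ ≤ 8 * D} with hF
  -- the small constant
  obtain ⟨η, hη0, hη1, hη2⟩ : ∃ η : ℝ, 0 < η ∧ η ≤ D / 8 ∧ η * (25 + 8 / D) ≤ 1 / 20 := by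
    have h1 : (0 : ℝ) < 25 + 8 / D := by positivity
    refine ⟨min (D / 8) (1 / 20 / (25 + 8 / D)), by positivity, min_le_left _ _, ?_⟩
    calc min (D / 8) (1 / 20 / (25 + 8 / D)) * (25 + 8 / D)
        ≤ (1 / 20 / (25 + 8 / D)) * (25 + 8 / D) :=
          mul_le_mul_of_nonneg_right (min_le_right _ _) h1.le
      _ = 1 / 20 := by field_simp
  obtain ⟨M, hM0, φ, hφ⟩ := t1 F hfin η hη0
  have hM1 : (1 : ℝ) ≤ (M : ℝ) := by exact_mod_cast hM0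
  have hMpos : (0 : ℝ) < (M : ℝ) := by linarith
  have hMC : (M : ℂ) ≠ 0 := by exact_mod_cast hM0.ne'
  have hG : ∀ p ∈ P, ∀ p' ∈ P, p - p' ∈ AddSubgroup.closure F :=
    t4b P D hD hdense _ (fun p hp p' hp' h =>
      AddSubgroup.subset_closure ⟨p, hp, p', hp', rfl, by linarith⟩)
  obtain ⟨p0, hp0, -⟩ := hdense 0
  -- the additive extension
  let Ψ : ℂ → ℤ × ℤ := fun d => if h : d ∈ AddSubgroup.closure F then φ ⟨d, h⟩ else 0
  have hΨsub : ∀ a ∈ AddSubgroup.closure F, ∀ b ∈ AddSubgroup.closure F,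
      Ψ a - Ψ b = Ψ (a - b) := by
    intro a ha b hb
    have hab := AddSubgroup.sub_mem _ ha hb
    simp only [Ψ, dif_pos ha, dif_pos hb, dif_pos hab]
    rw [← map_sub]; rfl
  let Φ : ℂ → ℤ × ℤ := fun p => Ψ (p - p0)
  have hΦ : ∀ p ∈ P, ∀ p' ∈ P, Φ p - Φ p' = Ψ (p - p') := by
    intro p hp p' hp'
    have h := hΨsub _ (hG p hp p0 hp0) _ (hG p' hp' p0 hp0)
    simp only [Φ]
    rw [h]; congr 1; ring
  have hF1 : ∀ p ∈ P, ∀ p' ∈ P, ‖p - p'‖ ≤ 8 * D →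
      ‖(M : ℂ) * (p - p') - E (Φ p - Φ p')‖ ≤ η := by
    intro p hp p' hp' h
    have hm : p - p' ∈ F := ⟨p, hp, p', hp', rfl, h⟩
    have h1 := hφ _ hm
    rw [hΦ p hp p' hp']
    have h2 : Ψ (p - p') = φ ⟨p - p', AddSubgroup.subset_closure hm⟩ :=
      dif_pos (AddSubgroup.subset_closure hm)
    rw [h2]; exact h1
  let u : ℂ → ℂ := fun p => (M : ℂ) * p - E (Φ p)
  have husub : ∀ p p', u p - u p' = (M : ℂ) * (p - p') - E (Φ p - Φ p') := by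
    intro p p'
    simp only [u]; rw [E_sub]; ring
  have hlip : ∀ p ∈ P, ∀ p' ∈ P, ‖u p - u p'‖ ≤ η * (1 + 4 * ‖p - p'‖ / D) :=
    t4a P D hD hdense u η hη0.le (fun p hp p' hp' h => by
      rw [husub]; exact hF1 p hp p' hp' (by linarith))
  have hnear : ∀ v : ℤ × ℤ, ∃ p ∈ P, ‖E (Φ p - v)‖ ≤ M * D :=
    t5 P D hD hdense Φ M hM1 (fun p hp p' hp' h => by
      have := hF1 p hp p' hp' (by linarith)
      exact le_trans (by simpa using this) hη1)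
  -- distance estimate
  have hηD : η * (4 / D) ≤ 1 / 2 := by
    have h1 : η * (4 / D) ≤ D / 8 * (4 / D) := mul_le_mul_of_nonneg_right hη1 (by positivity)
    have h2 : D / 8 * (4 / D) = 1 / 2 := by field_simp; norm_num
    linarith
  have hdist : ∀ p ∈ P, ∀ q ∈ P, ∀ L : ℝ, 0 ≤ L → ‖E (Φ p - Φ q)‖ ≤ 2 * (M * D) + L →
      ‖p - q‖ ≤ 4 * D + 2 * L + 2 * η := by
    intro p hp q hq L hL h
    have h1 : (M : ℂ) * (p - q) = E (Φ p - Φ q) + (u p - u q) := by rw [husub]; ring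
    have h2 : (M : ℝ) * ‖p - q‖ ≤ 2 * (M * D) + L + η * (1 + 4 * ‖p - q‖ / D) := by
      calc (M : ℝ) * ‖p - q‖ = ‖(M : ℂ) * (p - q)‖ := by rw [norm_mul]; simp
        _ = ‖E (Φ p - Φ q) + (u p - u q)‖ := by rw [h1]
        _ ≤ ‖E (Φ p - Φ q)‖ + ‖u p - u q‖ := norm_add_le _ _
        _ ≤ _ := add_le_add h (hlip p hp q hq)
    have h3 : η * (1 + 4 * ‖p - q‖ / D) = η + (η * (4 / D)) * ‖p - q‖ := by ring
    have hn := norm_nonneg (p - q)
    have h4 : (η * (4 / D)) * ‖p - q‖ ≤ 1 / 2 * ‖p - q‖ := mul_le_mul_of_nonneg_right hηD hn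
    have h5 : 1 / 2 * ‖p - q‖ ≤ (M : ℝ) * (1 / 2 * ‖p - q‖) := by nlinarith
    -- (M/2) * ‖p - q‖ ≤ 2 M D + L + η
    have h6 : (M : ℝ) * (1 / 2 * ‖p - q‖) ≤ 2 * (M * D) + L + η := by nlinarith
    have h7 : L + η ≤ (M : ℝ) * (L + η) := by nlinarith
    have h8 : (M : ℝ) * (1 / 2 * ‖p - q‖) ≤ (M : ℝ) * (2 * D + L + η) := by nlinarith
    have h9 := le_of_mul_le_mul_left h8 hMpos
    linarith
  let N : ℤ × ℤ → Set ℂ := fun v => {p | p ∈ P ∧ ‖E (Φ p - v)‖ ≤ M * D}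
  have hNne : ∀ v, (N v).Nonempty := fun v => by
    obtain ⟨p, hp, h⟩ := hnear v
    exact ⟨p, hp, h⟩
  have hEneg : ∀ a b : ℤ × ℤ, ‖E (a - b)‖ = ‖E (b - a)‖ := by
    intro a b; rw [E_sub, E_sub, norm_sub_rev]
  have hNN : ∀ v w, ∀ p ∈ N v, ∀ q ∈ N w, ‖p - q‖ ≤ 4 * D + 2 * ‖E (v - w)‖ + 2 * η := by
    intro v w p hp q hq
    refine hdist p hp.1 q hq.1 _ (norm_nonneg _) ?_
    have h1 : E (Φ p - Φ q) = E (Φ p - v) + E (v - w) - E (Φ q - w) := by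
      simp only [E_sub]; ring
    calc ‖E (Φ p - Φ q)‖ = ‖E (Φ p - v) + E (v - w) - E (Φ q - w)‖ := by rw [h1]
      _ ≤ ‖E (Φ p - v) + E (v - w)‖ + ‖E (Φ q - w)‖ := norm_sub_le _ _
      _ ≤ ‖E (Φ p - v)‖ + ‖E (v - w)‖ + ‖E (Φ q - w)‖ := by
          have := norm_add_le (E (Φ p - v)) (E (v - w)); linarith
      _ ≤ _ := by have := hp.2; have := hq.2; linarith
  have hE0 : ‖E ((0 : ℤ × ℤ))‖ = 0 := by simp [E]
  have hN6 : ∀ v, ∀ p ∈ N v, ∀ q ∈ N v, ‖p - q‖ ≤ 6 * D := by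
    intro v p hp q hq
    have := hNN v v p hp q hq
    rw [sub_self, hE0] at this
    linarith
  have hNfin : ∀ v, (N v).Finite := by
    intro v
    obtain ⟨p1, hp1⟩ := hNne v
    refine (hfin.image (fun d => p1 - d)).subset ?_
    intro q hq
    refine ⟨p1 - q, ⟨p1, hp1.1, q, hq.1, rfl, ?_⟩, by ring⟩
    have := hN6 v p1 hp1 q hq
    linarith
  obtain ⟨c, hc1, hc2⟩ := t2
  have hcmem : ∀ v, ∃ p ∈ N v, u p = c (u '' N v) := by
    intro v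
    exact hc1 (u '' N v) ((hNfin v).image u) ((hNne v).image u)
  let g : ℤ × ℤ → ℂ := fun v => (E v + c (u '' N v)) / M
  have hgM : ∀ v, (M : ℂ) * g v = E v + c (u '' N v) := by
    intro v; simp only [g]; field_simp
  have hLD : ∀ L : ℝ, 1 ≤ L → η * (1 + 4 * (4 * D + 2 * L + 2 * η) / D) ≤ 1 / 20 * L := by
    intro L hL
    have h1 : 4 * (4 * D + 2 * L + 2 * η) / D = 16 + 8 / D * L + 8 / D * η := by
      field_simp; ring
    rw [h1]
    have h2 : 8 / D * η ≤ 1 := by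
      have : 8 / D * η = 2 * (η * (4 / D)) := by ring
      linarith
    have h3 : (0 : ℝ) < 8 / D := by positivity
    have h4 : η * (1 + (16 + 8 / D * L + 8 / D * η)) ≤ η * (18 * L + 8 / D * L) := by
      apply mul_le_mul_of_nonneg_left _ hη0.le
      nlinarith
    have h5 : η * (18 * L + 8 / D * L) ≤ η * (25 + 8 / D) * L := by nlinarith [mul_nonneg hη0.le (by linarith : (0:ℝ) ≤ L)]
    have h6 : η * (25 + 8 / D) * L ≤ 1 / 20 * L := mul_le_mul_of_nonneg_right hη2 (by linarith)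
    linarith
  refine ⟨1 / M, g, ⟨by positivity, ?_⟩, ?_⟩
  · intro v w
    by_cases hvw : v = w
    · subst hvw
      rw [sub_self, sub_self, hE0]
      simp [E]
    · have hL : 1 ≤ ‖E (v - w)‖ := by
        rcases E_cases (v - w) with h | ⟨-, h⟩ | h
        · exact absurd (sub_eq_zero.1 h) hvw
        · exact h.ge
        · have := norm_nonneg (E (v - w)); nlinarith
      obtain ⟨p, hp, hpu⟩ := hcmem v
      obtain ⟨q, hq, hqu⟩ := hcmem w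
      have h1 : g v - g w - ((1 / (M : ℝ) : ℝ) : ℂ) * E (v - w) = (u p - u q) / M := by
        simp only [g]; rw [← hpu, ← hqu, E_sub]; push_cast; field_simp; ring
      rw [h1, norm_div]
      have h2 : ‖(M : ℂ)‖ = M := by simp
      rw [h2, div_le_iff₀ hMpos]
      have h3 : 1 / 20 * (1 / (M : ℝ)) * ‖E (v - w)‖ * M = 1 / 20 * ‖E (v - w)‖ := by
        field_simp
      rw [h3]
      have h4 := hlip p hp.1 q hq.1
      have h5 := hNN v w p hp q hq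
      have h6 : η * (1 + 4 * ‖p - q‖ / D) ≤
          η * (1 + 4 * (4 * D + 2 * ‖E (v - w)‖ + 2 * η) / D) := by
        apply mul_le_mul_of_nonneg_left _ hη0.le
        have : 4 * ‖p - q‖ / D ≤ 4 * (4 * D + 2 * ‖E (v - w)‖ + 2 * η) / D := by
          apply div_le_div_of_nonneg_right _ hD.le
          linarith
        linarith
      linarith [hLD _ hL]
  · intro R2
    refine ⟨|R2| + 8 * D + 25 * η + 1, fun x y hxy => ?_⟩
    have hR2 := le_abs_self R2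
    have hR2' := abs_nonneg R2
    obtain ⟨p1, hp1, hp1x⟩ := hdense x
    have hp1n : ‖p1 - x‖ < |R2| + 8 * D + 25 * η + 1 := by
      rw [norm_sub_rev]; linarith
    have hp1' : y + (p1 - x) ∈ P := (hxy (p1 - x) hp1n).1 (by simpa using hp1)
    refine ⟨Φ (y + (p1 - x)) - Φ p1, ?_⟩
    set τ := Φ (y + (p1 - x)) - Φ p1 with hτ
    -- the shift of Φ
    have hshift : ∀ q ∈ P, y + (q - x) ∈ P → Φ (y + (q - x)) = Φ q + τ := by
      intro q hq hq'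
      have h1 := hΦ _ hq' _ hp1'
      have h2 := hΦ _ hq _ hp1
      have h3 : y + (q - x) - (y + (p1 - x)) = q - p1 := by ring
      rw [h3, ← h2] at h1
      rw [hτ]
      have h4 : Φ (y + (q - x)) = Φ q - Φ p1 + Φ (y + (p1 - x)) := by
        rw [← h1]; abel
      rw [h4]; abel
    intro v hv
    have hqx : ∀ q ∈ N v, ‖q - x‖ ≤ |R2| + D + 25 * η := by
      intro q hq
      obtain ⟨p, hp, hpu⟩ := hcmem v
      have h1 : (M : ℂ) * (q - g v) = E (Φ q - v) + (u q - u p) := by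
        have := hgM v
        rw [mul_sub, this, ← hpu]
        simp only [u]; rw [E_sub]; ring
      have h2 : (M : ℝ) * ‖q - g v‖ ≤ M * D + 25 * η := by
        calc (M : ℝ) * ‖q - g v‖ = ‖(M : ℂ) * (q - g v)‖ := by rw [norm_mul]; simp
          _ = ‖E (Φ q - v) + (u q - u p)‖ := by rw [h1]
          _ ≤ ‖E (Φ q - v)‖ + ‖u q - u p‖ := norm_add_le _ _
          _ ≤ M * D + η * (1 + 4 * ‖q - p‖ / D) := add_le_add hq.2 (hlip q hq.1 p hp.1)
          _ ≤ M * D + 25 * η := by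
              have h3 := hN6 v q hq p hp
              have h4 : 4 * ‖q - p‖ / D ≤ 24 := by
                rw [div_le_iff₀ hD]; linarith
              nlinarith
      have h3 : (M : ℝ) * ‖q - g v‖ ≤ M * (D + 25 * η) := by nlinarith
      have h4 := le_of_mul_le_mul_left h3 hMpos
      calc ‖q - x‖ = ‖(q - g v) + (g v - x)‖ := by congr 1; ring
        _ ≤ ‖q - g v‖ + ‖g v - x‖ := norm_add_le _ _
        _ ≤ _ := by linarith
    have hN : N (v + τ) = (fun q => y + (q - x)) '' N v := by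
      have hfwd : ∀ q ∈ N v, y + (q - x) ∈ N (v + τ) := by
        intro q hq
        have h1 : y + (q - x) ∈ P := (hxy (q - x) (by have := hqx q hq; linarith)).1
          (by simpa using hq.1)
        refine ⟨h1, ?_⟩
        rw [hshift q hq.1 h1]
        have : Φ q + τ - (v + τ) = Φ q - v := by abel
        rw [this]; exact hq.2
      ext q'
      constructor
      · intro hq'
        obtain ⟨q1, hq1⟩ := hNne v
        have h1 := hN6 (v + τ) q' hq' _ (hfwd q1 hq1)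
        have h2 : ‖q' - y‖ < |R2| + 8 * D + 25 * η + 1 := by
          calc ‖q' - y‖ = ‖(q' - (y + (q1 - x))) + (q1 - x)‖ := by congr 1; ring
            _ ≤ ‖q' - (y + (q1 - x))‖ + ‖q1 - x‖ := norm_add_le _ _
            _ < _ := by have := hqx q1 hq1; linarith
        have h3 : x + (q' - y) ∈ P := (hxy (q' - y) h2).2 (by simpa using hq'.1)
        have h4 : y + (x + (q' - y) - x) = q' := by ring
        refine ⟨x + (q' - y), ⟨h3, ?_⟩, h4⟩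
        have h5 := hshift (x + (q' - y)) h3 (by rw [h4]; exact hq'.1)
        rw [h4] at h5
        have h6 : Φ (x + (q' - y)) - v = Φ q' - (v + τ) := by rw [h5]; abel
        rw [h6]; exact hq'.2
      · rintro ⟨q, hq, rfl⟩
        exact hfwd q hq
    have huN : u '' N (v + τ) = (fun z => z + ((M : ℂ) * (y - x) - E τ)) '' (u '' N v) := by
      rw [hN, image_image, image_image]
      apply image_congr
      intro q hq
      have h1 : y + (q - x) ∈ P := (hxy (q - x) (by have := hqx q hq; linarith)).1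
          (by simpa using hq.1)
      show (M : ℂ) * (y + (q - x)) - E (Φ (y + (q - x))) =
        (M : ℂ) * q - E (Φ q) + ((M : ℂ) * (y - x) - E τ)
      rw [hshift q hq.1 h1, E_add]; ring
    show (E (v + τ) + c (u '' N (v + τ))) / M = (E v + c (u '' N v)) / M + (y - x)
    rw [huN, hc2 _ _ ((hNfin v).image u) ((hNne v).image u), E_add]
    field_simp
    ring

end Pool.Agent.K4H72.Til
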