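import Pool.Agent.K4H72.Til.Spec

open Set

namespace Pool.Agent.K4H72.Til

/-- T3: the basics of E -/
theorem E_sub (v w : ℤ × ℤ) : E (v - w) = E v - E w := by
  simp only [E, Prod.fst_sub, Prod.snd_sub]; push_cast; ring

theorem E_add (v w : ℤ × ℤ) : E (v + w) = E v + E w := by
  simp only [E, Prod.fst_add, Prod.snd_add]; push_cast; ring

theorem T3_re (v : ℤ × ℤ) : (E v).re = v.1 + v.2 / 2 := by
  simp [E, ζ]; ring

theorem T3_im (v : ℤ × ℤ) : (E v).im = v.2 * (Real.sqrt 3 / 2) := by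
  simp [E, ζ]

theorem T3_sq (z : ℂ) : ‖z‖ ^ 2 = z.re ^ 2 + z.im ^ 2 := by
  rw [← Complex.normSq_eq_norm_sq, Complex.normSq_apply]; ring

theorem norm_E_sq (v : ℤ × ℤ) : ‖E v‖ ^ 2 = (v.1 : ℝ) ^ 2 + v.1 * v.2 + (v.2 : ℝ) ^ 2 := by
  have h3 : Real.sqrt 3 ^ 2 = 3 := Real.sq_sqrt (by norm_num)
  rw [T3_sq, T3_re, T3_im]
  linear_combination ((v.2 : ℝ) ^ 2 / 4) * h3

/-- norm form values: 0, 1 (exactly on `six`), at least 3 -/
theorem E_cases (v : ℤ × ℤ) : v = 0 ∨ (v ∈ six ∧ ‖E v‖ = 1) ∨ 3 ≤ ‖E v‖ ^ 2 := by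
  obtain ⟨a, b⟩ := v
  by_cases hN : 3 ≤ a ^ 2 + a * b + b ^ 2
  · right; right
    rw [norm_E_sq]
    exact_mod_cast hN
  · push Not at hN
    have hb : b ^ 2 ≤ 2 := by nlinarith [sq_nonneg (2 * a + b)]
    have ha : a ^ 2 ≤ 2 := by nlinarith [sq_nonneg (2 * b + a)]
    have hb1 : b ≤ 1 := by nlinarith
    have hb2 : -1 ≤ b := by nlinarith
    have ha1 : a ≤ 1 := by nlinarith
    have ha2 : -1 ≤ a := by nlinarith
    have hone : ∀ w : ℤ × ℤ, (w.1 : ℝ) ^ 2 + w.1 * w.2 + (w.2 : ℝ) ^ 2 = 1 → ‖E w‖ = 1 := by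
      intro w hw
      have h1 := norm_E_sq w
      rw [hw] at h1
      have h2 := norm_nonneg (E w)
      nlinarith
    interval_cases a <;> interval_cases b <;> first
      | (left; rfl)
      | (right; left; exact ⟨by decide, hone _ (by norm_num)⟩)
      | (exfalso; norm_num at hN)

theorem E_finite (r : ℝ) : {v : ℤ × ℤ | ‖E v‖ ≤ r}.Finite := by
  obtain ⟨K, hK⟩ := exists_nat_ge (2 * |r|)
  have hsub : {v : ℤ × ℤ | ‖E v‖ ≤ r} ⊆ (Set.Icc (-(K : ℤ)) K) ×ˢ (Set.Icc (-(K : ℤ)) K) := by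
    intro v hv
    have hv1 : ‖E v‖ ≤ r := hv
    have h0 := norm_nonneg (E v)
    have hr : |r| = r := abs_of_nonneg (h0.trans hv1)
    rw [hr] at hK
    have h1 := norm_E_sq v
    have h2 : ‖E v‖ ^ 2 ≤ r ^ 2 := by nlinarith
    have h3 : (v.2 : ℝ) ^ 2 ≤ (K : ℝ) ^ 2 := by
      nlinarith [sq_nonneg (2 * (v.1 : ℝ) + v.2)]
    have h4 : (v.1 : ℝ) ^ 2 ≤ (K : ℝ) ^ 2 := by
      nlinarith [sq_nonneg (2 * (v.2 : ℝ) + v.1)]
    have h5 := abs_le_of_sq_le_sq' h3 (Nat.cast_nonneg K)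
    have h6 := abs_le_of_sq_le_sq' h4 (Nat.cast_nonneg K)
    refine ⟨⟨?_, ?_⟩, ⟨?_, ?_⟩⟩
    · exact_mod_cast h6.1
    · exact_mod_cast h6.2
    · exact_mod_cast h5.1
    · exact_mod_cast h5.2
  exact ((Set.finite_Icc _ _).prod (Set.finite_Icc _ _)).subset hsub

/-- nearest lattice point -/
theorem E_near (z : ℂ) : ∃ v : ℤ × ℤ, ‖z - E v‖ ≤ 1 := by
  have h3 : Real.sqrt 3 ^ 2 = 3 := Real.sq_sqrt (by norm_num)
  have hs : 0 < Real.sqrt 3 := Real.sqrt_pos.2 (by norm_num)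
  obtain ⟨y, hy⟩ : ∃ y : ℝ, z.im = y * (Real.sqrt 3 / 2) := ⟨2 * z.im / Real.sqrt 3, by field_simp⟩
  obtain ⟨x, hx⟩ : ∃ x : ℝ, z.re = x + y / 2 := ⟨z.re - y / 2, by ring⟩
  refine ⟨(round x, round y), ?_⟩
  have h1 := abs_le.1 (abs_sub_round x)
  have h2 := abs_le.1 (abs_sub_round y)
  have h4 : ‖z - E (round x, round y)‖ ^ 2 ≤ 1 := by
    rw [T3_sq, Complex.sub_re, Complex.sub_im, T3_re, T3_im, hx, hy]
    have e1 : (x + y / 2 - (((round x : ℤ) : ℝ) + ((round y : ℤ) : ℝ) / 2)) ^ 2 +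
        (y * (Real.sqrt 3 / 2) - ((round y : ℤ) : ℝ) * (Real.sqrt 3 / 2)) ^ 2 =
        (x - round x) ^ 2 + (x - round x) * (y - round y) + (y - round y) ^ 2 := by
      linear_combination ((y - round y) ^ 2 / 4) * h3
    simp only at e1 ⊢
    rw [e1]
    nlinarith [h1.1, h1.2, h2.1, h2.2]
  have h5 := norm_nonneg (z - E (round x, round y))
  nlinarith

end Pool.Agent.K4H72.Til
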